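import Pool.Agent.H74.AO.HStmts

/-!
# Module HCU
-/

set_option linter.unusedVariables false
set_option linter.unusedSectionVars false
set_option synthInstance.maxSize 100000

namespace AO

open SW MeasureTheory

theorem hcu_gv_mono (Z : Rl → Rl → Prop) {V W : Set Vx} (h : V ⊆ W) : GV Z V ≤ GV Z W := by
  refine Subgroup.closure_mono ?_
  rintro g (⟨v, s, hv, hg⟩ | ⟨y, w, n, hy, hw, hg⟩)
  · exact Or.inl ⟨v, s, h hv, hg⟩
  · exact Or.inr ⟨y, w, n, h hy, h hw, hg⟩

theorem hcu_srt_inj {ι : Vx → ℝ} {n : ℕ} {V : ℕ → Vx} (hs : Srt ι n V) {i j : ℕ} (hi : i < n)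
    (hj : j < n) (h : V i = V j) : i = j := by
  rcases lt_trichotomy i j with h1 | h1 | h1
  · have := hs.1 i j h1 hj
    rw [h] at this
    exact absurd this (lt_irrefl _)
  · exact h1
  · have := hs.1 j i h1 hi
    rw [h] at this
    exact absurd this (lt_irrefl _)

/-- the increasing enumeration -/
theorem hcu_enum (ι : Vx → ℝ) (hι : Function.Injective ι) (F : Finset Vx) :
    ∃ (n : ℕ) (V : ℕ → Vx), Srt ι n V ∧ fv V (Finset.range n) = ↑F := by
  classical
  have hcard : (F.image ι).card = F.card := Finset.card_image_of_injective F hι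
  let e := (F.image ι).orderEmbOfFin hcard
  have he : ∀ i : Fin F.card, ∃ v ∈ F, ι v = e i := by
    intro i
    have := Finset.orderEmbOfFin_mem (F.image ι) hcard i
    rw [Finset.mem_image] at this
    exact this
  choose f hf hf' using he
  refine ⟨F.card, fun i => if h : i < F.card then f ⟨i, h⟩ else (false, fun _ => false), ⟨?_, ?_⟩, ?_⟩
  · intro i j hij hj
    have hi : i < F.card := hij.trans hj
    simp only [hi, hj, dif_pos, hf']
    exact e.strictMono (by exact hij)
  · intro i hi
    simp only [not_lt.2 hi, dif_neg, not_false_iff]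
  · ext v
    constructor
    · rintro ⟨i, hi, rfl⟩
      rw [Finset.mem_range] at hi
      simp only [hi, dif_pos]
      exact hf _
    · intro hv
      have h1 : ι v ∈ Set.range e := by
        rw [Finset.range_orderEmbOfFin]
        exact Finset.mem_coe.2 (Finset.mem_image_of_mem ι hv)
      obtain ⟨i, hi⟩ := h1
      refine ⟨i.1, Finset.mem_range.2 i.2, ?_⟩
      simp only [i.2, dif_pos]
      apply hι
      rw [hf', hi]

/-- uniqueness of the increasing enumeration -/
theorem hcu_enum_unique {ι : Vx → ℝ} (hι : Function.Injective ι) {F : Finset Vx} {n : ℕ} {V : ℕ → Vx}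
    (hs : Srt ι n V) (hF : fv V (Finset.range n) = ↑F) (n' : ℕ) (V' : ℕ → Vx)
    (hs' : Srt ι n' V') (hF' : fv V' (Finset.range n') = ↑F) : n = n' ∧ V = V' := by
  classical
  have key : ∀ (m : ℕ) (U : ℕ → Vx), Srt ι m U → fv U (Finset.range m) = ↑F →
      m = F.card ∧ ∀ (hc : (F.image ι).card = m) (i : Fin m), ι (U i) = (F.image ι).orderEmbOfFin hc i := by
    intro m U hU hUF
    have h1 : F = (Finset.range m).image U := by
      ext v
      rw [Finset.mem_image, ← Finset.mem_coe, ← hUF]
      constructor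
      · rintro ⟨j, hj, rfl⟩
        exact ⟨j, hj, rfl⟩
      · rintro ⟨j, hj, rfl⟩
        exact ⟨j, hj, rfl⟩
    have h2 : m = F.card := by
      rw [h1, Finset.card_image_of_injOn, Finset.card_range]
      intro i hi j hj hij
      rw [Finset.coe_range, Set.mem_Iio] at hi hj
      exact hcu_srt_inj hU hi hj hij
    refine ⟨h2, fun hc i => ?_⟩
    have h3 := Finset.orderEmbOfFin_unique hc (f := fun i : Fin m => ι (U i)) ?_ ?_
    · exact congrFun h3 i
    · intro j
      refine Finset.mem_image_of_mem ι ?_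
      rw [h1]
      exact Finset.mem_image_of_mem U (Finset.mem_range.2 j.2)
    · intro i j hij
      exact hU.1 i.1 j.1 hij j.2
  obtain ⟨h1, h2⟩ := key n V hs hF
  obtain ⟨h3, h4⟩ := key n' V' hs' hF'
  have hnn : n = n' := h1.trans h3.symm
  subst hnn
  refine ⟨rfl, ?_⟩
  funext i
  by_cases hi : i < n
  · have hc : (F.image ι).card = n := by
      rw [Finset.card_image_of_injective F hι, h1]
    have e1 := h2 hc ⟨i, hi⟩
    have e2 := h4 hc ⟨i, hi⟩
    apply hι
    rw [show V i = V (⟨i, hi⟩ : Fin n).1 from rfl, e1, ← e2]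
  · rw [hs.2 i (not_lt.1 hi), hs'.2 i (not_lt.1 hi)]

theorem ao_hcu (hp : HPTStmt) (hl : HLSStmt) : HCUStmt := by
  classical
  intro Z ι hι g
  obtain ⟨F, hgF, hmin⟩ := hl Z g
  obtain ⟨n, V, hs, hF⟩ := hcu_enum ι hι F
  have hgV : g ∈ GV Z (fv V (Finset.range n)) := by
    rw [hF]
    exact hgF
  have hex : ∃ p, el Z V p = g := by
    obtain ⟨p, -, hp'⟩ := hp.sur Z V (Finset.range n) g hgV
    exact ⟨p, hp'⟩
  refine ⟨(n, Nat.find hex, V), ⟨⟨hs, ?_, ?_, ?_⟩, Nat.find_spec hex⟩, ?_⟩
  · show el Z V (Nat.find hex) ∈ _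
    rw [Nat.find_spec hex]
    exact hgV
  · intro i hi
    show el Z V (Nat.find hex) ∉ _
    rw [Nat.find_spec hex]
    intro h
    have h1 := hmin _ h
    have h2 : V i ∈ (↑F : Set Vx) := by
      rw [← hF]
      exact ⟨i, Finset.mem_range.2 hi, rfl⟩
    obtain ⟨j, hj, hj'⟩ := h1 h2
    rw [Finset.mem_erase, Finset.mem_range] at hj
    exact hj.1 (hcu_srt_inj hs hi hj.2 hj').symm
  · intro p hlt
    show el Z V p ≠ el Z V (Nat.find hex)
    rw [Nat.find_spec hex]
    exact Nat.find_min hex hlt
  · rintro ⟨n', p', V'⟩ ⟨hc, hg⟩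
    have hs' : Srt ι n' V' := hc.srt
    have hg' : el Z V' p' = g := hg
    have hF' : fv V' (Finset.range n') = ↑F := by
      apply Set.Subset.antisymm
      · rintro v ⟨i, hi, rfl⟩
        rw [Finset.mem_range] at hi
        by_contra hv
        refine hc.min i hi ?_
        show el Z V' p' ∈ _
        rw [hg']
        refine hcu_gv_mono Z ?_ hgF
        intro u hu
        have h1 : u ∈ fv V' (Finset.range n') := by
          refine hmin _ ?_ hu
          rw [← hg']
          exact hc.mem
        obtain ⟨j, hj, hj'⟩ := h1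
        refine ⟨j, Finset.mem_erase.2 ⟨?_, hj⟩, hj'⟩
        rintro rfl
        rw [hj'] at hu
        exact hv hu
      · refine hmin _ ?_
        rw [← hg']
        exact hc.mem
    obtain ⟨e1, e2⟩ := hcu_enum_unique hι hs' hF' n V hs hF
    subst e1
    subst e2
    have e3 : p' = Nat.find hex := by
      symm
      rw [Nat.find_eq_iff]
      refine ⟨hg', fun m hm => ?_⟩
      have := hc.least m hm
      intro h
      exact this (h.trans hg'.symm)
    rw [e3]

end AO
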