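import Pool.Agent.H74.AO.HStmts

/-!
# Module HNR
-/

set_option linter.unusedVariables false
set_option linter.unusedSectionVars false
set_option synthInstance.maxSize 100000

namespace AO

open SW MeasureTheory

theorem hnr_gv_mono (Z : Rl → Rl → Prop) {V W : Set Vx} (h : V ⊆ W) : GV Z V ≤ GV Z W := by
  refine Subgroup.closure_mono ?_
  rintro g (⟨v, s, hv, hg⟩ | ⟨y, w, n, hy, hw, hg⟩)
  · exact Or.inl ⟨v, s, h hv, hg⟩
  · exact Or.inr ⟨y, w, n, h hy, h hw, hg⟩

open Classical in
/-- the number `k` with `S = sgl k` -/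
noncomputable def hnrK (S : Rl) : ℕ := if h : ∃ k, S = sgl k then Classical.choose h else 0

theorem hnr_sgl_inj {j k : ℕ} (h : sgl j = sgl k) : j = k := by
  have := congrFun h j
  unfold sgl at this
  simpa using this

theorem hnrK_sgl (k : ℕ) : hnrK (sgl k) = k := by
  unfold hnrK
  have h : ∃ j, sgl k = sgl j := ⟨k, rfl⟩
  rw [dif_pos h]
  exact (hnr_sgl_inj (Classical.choose_spec h)).symm

theorem hnrK_meas : Measurable hnrK := by
  refine measurable_to_countable' fun k => ?_
  have hk : ∀ k, k ≠ 0 → hnrK ⁻¹' {k} = {sgl k} := by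
    intro k hk
    ext S
    simp only [Set.mem_preimage, Set.mem_singleton_iff]
    constructor
    · intro hS
      by_cases h : ∃ j, S = sgl j
      · obtain ⟨j, rfl⟩ := h
        rw [hnrK_sgl] at hS
        rw [hS]
      · unfold hnrK at hS
        rw [dif_neg h] at hS
        exact absurd hS.symm hk
    · rintro rfl
      exact hnrK_sgl k
  by_cases h0 : k = 0
  · subst h0
    have : hnrK ⁻¹' {0} = (⋃ k ∈ {k : ℕ | k ≠ 0}, hnrK ⁻¹' {k})ᶜ := by
      ext S
      simp only [Set.mem_preimage, Set.mem_singleton_iff, Set.mem_compl_iff, Set.mem_iUnion,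
        not_exists]
      constructor
      · intro h k hk h'
        exact hk (h'.symm.trans h)
      · intro h
        by_contra h'
        exact h _ h' rfl
    rw [this]
    refine (MeasurableSet.biUnion (Set.to_countable _) fun k hk' => ?_).compl
    rw [hk k hk']
    exact measurableSet_singleton _
  · rw [hk k h0]
    exact measurableSet_singleton _

theorem ao_hnr (hmg : HMGStmt) (hpt : HPTStmt) (hml : HMLStmt) (hcu : HCUStmt) (hbj : HBJStmt) :
    HNRStmt := by
  classical
  intro Z hZ
  obtain ⟨ι, hι⟩ := exists_measurableEmbedding_real Vx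
  have hιm : Measurable ι := hι.measurable
  have hιi : Function.Injective ι := hι.injective
  obtain ⟨θ⟩ := hbj Z ι hZ hιm hιi
  let ρ : ℝ → Cd := fun x => (θ x).1
  have hρ : Measurable ρ := measurable_subtype_coe.comp θ.measurable
  let H : ℝ → Gr Z := fun x => el Z (ρ x).2.2 (ρ x).2.1
  have hcode : ∀ g : Gr Z, ∃ x : ℝ, H x = g := by
    intro g
    obtain ⟨c, ⟨hc, hc'⟩, -⟩ := hcu Z ι hιi g
    refine ⟨θ.symm ⟨c, hc⟩, ?_⟩
    show el Z (θ (θ.symm ⟨c, hc⟩)).1.2.2 (θ (θ.symm ⟨c, hc⟩)).1.2.1 = g
    rw [MeasurableEquiv.apply_symm_apply]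
    exact hc'
  have hinj : Function.Injective H := by
    intro x y hxy
    obtain ⟨c, -, hu⟩ := hcu Z ι hιi (H y)
    have h1 := hu (θ x).1 ⟨(θ x).2, hxy⟩
    have h2 := hu (θ y).1 ⟨(θ y).2, rfl⟩
    exact θ.injective (Subtype.ext (h1.trans h2.symm))
  choose inv hinv using hcode
  have hinv' : ∀ g x, inv g = x ↔ g = H x := by
    intro g x
    constructor
    · rintro rfl
      exact (hinv g).symm
    · rintro rfl
      exact hinj (hinv _)
  have hp : ∀ p : ℕ, MeasurableSet {x : ℝ | (ρ x).2.1 = p} := by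
    intro p
    have : Measurable fun x => (ρ x).2.1 := measurable_fst.comp (measurable_snd.comp hρ)
    exact this (measurableSet_singleton p)
  have hV : Measurable fun x => (ρ x).2.2 := measurable_snd.comp (measurable_snd.comp hρ)
  -- the two basic facts
  have fact1 : ∀ (α : Type) [MeasurableSpace α] (W : α → ℕ → Vx) (q : ℕ), Measurable W →
      MeasurableSet {t : α × ℝ | el Z (W t.1) q = H t.2} := by
    intro α _ W q hW
    have e : {t : α × ℝ | el Z (W t.1) q = H t.2} =
        ⋃ p : ℕ, ({t : α × ℝ | (ρ t.2).2.1 = p} ∩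
          (fun t : α × ℝ => (W t.1, (ρ t.2).2.2)) ⁻¹' {t | el Z t.1 q = el Z t.2 p}) := by
      ext t
      simp only [Set.mem_ofPred_eq, Set.mem_iUnion, Set.mem_inter_iff, Set.mem_preimage]
      constructor
      · intro h
        exact ⟨_, rfl, h⟩
      · rintro ⟨p, rfl, h⟩
        exact h
    rw [e]
    refine MeasurableSet.iUnion fun p => (measurable_snd (hp p)).inter ?_
    exact ((hW.comp measurable_fst).prodMk (hV.comp measurable_snd)) ((hml Z hZ).1 q p)
  have fact2 : ∀ (α : Type) [MeasurableSpace α] (a b c : α → ℝ), Measurable a → Measurable b →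
      Measurable c → MeasurableSet {t : α | H (a t) * H (b t) = H (c t)} := by
    intro α _ a b c ha hb hc
    have e : {t : α | H (a t) * H (b t) = H (c t)} =
        ⋃ p : ℕ, ⋃ q : ℕ, ⋃ s : ℕ, (({t : α | (ρ (a t)).2.1 = p} ∩ {t : α | (ρ (b t)).2.1 = q} ∩
          {t : α | (ρ (c t)).2.1 = s}) ∩
          (fun t : α => ((ρ (a t)).2.2, (ρ (b t)).2.2, (ρ (c t)).2.2)) ⁻¹'
            {t | el Z t.1 p * el Z t.2.1 q = el Z t.2.2 s}) := by
      ext t
      simp only [Set.mem_ofPred_eq, Set.mem_iUnion, Set.mem_inter_iff, Set.mem_preimage]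
      constructor
      · intro h
        exact ⟨_, _, _, ⟨⟨rfl, rfl⟩, rfl⟩, h⟩
      · rintro ⟨p, q, s, ⟨⟨rfl, rfl⟩, rfl⟩, h⟩
        exact h
    rw [e]
    refine MeasurableSet.iUnion fun p => MeasurableSet.iUnion fun q => MeasurableSet.iUnion fun s =>
      (((ha (hp p)).inter (hb (hp q))).inter (hc (hp s))).inter ?_
    exact ((hV.comp ha).prodMk ((hV.comp hb).prodMk (hV.comp hc))) ((hml Z hZ).2 p q s)
  -- functions with values in the real numbers
  have fact3 : ∀ (α : Type) [MeasurableSpace α] [StandardBorelSpace α] (W : α → ℕ → Vx) (q : ℕ),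
      Measurable W → Measurable (fun t : α => inv (el Z (W t) q)) := by
    intro α _ _ W q hW
    refine hmg α ℝ _ ?_
    have e : {t : α × ℝ | t.2 = inv (el Z (W t.1) q)} = {t : α × ℝ | el Z (W t.1) q = H t.2} := by
      ext t
      simp only [Set.mem_ofPred_eq]
      rw [eq_comm, hinv']
    rw [e]
    exact fact1 α W q hW
  refine ⟨H, ⟨hinj, fun g => ⟨inv g, hinv g⟩⟩, ?_, ?_, ?_, ?_, ?_⟩
  · refine ⟨fun t => inv (H t.1 * H t.2), ?_, fun x y => hinv _⟩
    refine hmg (ℝ × ℝ) ℝ _ ?_
    have e : {t : (ℝ × ℝ) × ℝ | t.2 = inv (H t.1.1 * H t.1.2)} =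
        {t : (ℝ × ℝ) × ℝ | H t.1.1 * H t.1.2 = H t.2} := by
      ext t
      simp only [Set.mem_ofPred_eq]
      rw [eq_comm, hinv']
    rw [e]
    exact fact2 ((ℝ × ℝ) × ℝ) (fun t => t.1.1) (fun t => t.1.2) (fun t => t.2)
      (measurable_fst.comp measurable_fst) (measurable_snd.comp measurable_fst) measurable_snd
  · refine ⟨fun t => inv (H t)⁻¹, ?_, fun x => hinv _⟩
    refine hmg ℝ ℝ _ ?_
    have e : {t : ℝ × ℝ | t.2 = inv (H t.1)⁻¹} = {t : ℝ × ℝ | H t.1 * H t.2 = H (inv 1)} := by
      ext t
      simp only [Set.mem_ofPred_eq]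
      rw [eq_comm, hinv', hinv, mul_eq_one_iff_inv_eq]
    rw [e]
    exact fact2 (ℝ × ℝ) (fun t => t.1) (fun t => t.2) (fun t => inv 1) measurable_fst measurable_snd
      measurable_const
  · intro i
    have hx : ∀ k : ℕ, ∃ q : ℕ, pdec q = [(Sum.inl (0, ((Encodable.decode k : Option Str)).getD []), true)] :=
      fun k => hpt.code _
    choose q hq using hx
    let F : ℕ × Rl → ℝ := fun t => inv (el Z (fun _ => (i, t.2)) (q t.1))
    have hF : Measurable F := by
      refine measurable_from_prod_countable_right fun k => ?_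
      exact fact3 Rl (fun X _ => (i, X)) (q k)
        (measurable_pi_lambda _ fun _ => (measurable_const.prodMk measurable_id))
    refine ⟨fun t => F (hnrK t.2, t.1), hF.comp
      ((hnrK_meas.comp measurable_snd).prodMk measurable_fst), ?_⟩
    intro X s
    show H (inv (el Z (fun _ => (i, X)) (q (hnrK (sgl (sc s)))))) = _
    rw [hinv, hnrK_sgl]
    unfold el
    rw [hq]
    unfold sc
    rw [Encodable.encodek]
    rfl
  · have hx : ∀ k : ℕ, ∃ q : ℕ, pdec q = [(Sum.inr (0, 1, k), true)] := fun k => hpt.code _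
    choose q hq using hx
    let F : ℕ × (Rl × Rl) → ℝ := fun t =>
      inv (el Z (fun j => if j = 0 then (false, t.2.1) else (true, t.2.2)) (q t.1))
    have hF : Measurable F := by
      refine measurable_from_prod_countable_right fun k => ?_
      refine fact3 (Rl × Rl) (fun X j => if j = 0 then (false, X.1) else (true, X.2)) (q k) ?_
      refine measurable_pi_lambda _ fun j => ?_
      by_cases hj : j = 0
      · simp only [hj, if_true]
        exact measurable_const.prodMk measurable_fst
      · simp only [hj, if_false]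
        exact measurable_const.prodMk measurable_snd
    refine ⟨fun t => F (hnrK t.2.2, (t.1, t.2.1)), hF.comp
      ((hnrK_meas.comp (measurable_snd.comp measurable_snd)).prodMk
        (measurable_fst.prodMk (measurable_fst.comp measurable_snd))), ?_⟩
    intro X Y n
    show H (inv (el Z (fun j => if j = 0 then (false, X) else (true, Y)) (q (hnrK (sgl n))))) = _
    rw [hinv, hnrK_sgl]
    unfold el
    rw [hq]
    rfl
  · let vc : Vx → Rl := fun v n => Nat.casesOn n v.1 (fun m => v.2 m)
    have hvc : Measurable vc := by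
      refine measurable_pi_lambda _ fun n => ?_
      cases n with
      | zero => exact measurable_fst
      | succ m => exact (measurable_pi_apply m).comp measurable_snd
    have hvc' : ∀ v, vtx (vc v) = v := fun v => rfl
    let F : ℕ × ℝ → Rl := fun t => vc ((ρ t.2).2.2 t.1)
    have hF : Measurable F := by
      refine measurable_from_prod_countable_right fun k => ?_
      exact hvc.comp ((measurable_pi_apply k).comp hV)
    refine ⟨fun t => F (hnrK t.2, t.1), hF.comp
      ((hnrK_meas.comp measurable_snd).prodMk measurable_fst), ?_⟩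
    intro x
    have h1 : H x ∈ GV Z (fv (ρ x).2.2 (Finset.range (ρ x).1)) := (θ x).2.mem
    refine hnr_gv_mono Z ?_ h1
    rintro v ⟨j, hj, rfl⟩
    refine ⟨j, ?_⟩
    show _ = vtx (vc ((ρ x).2.2 (hnrK (sgl j))))
    rw [hvc', hnrK_sgl]

end AO
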