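import Pool.Agent.H94.AO.QStmts
import Pool.Agent.H83.AO.ALF
import Pool.Agent.H94.CC.CHAIN

/-!
# Module HNX
-/

set_option linter.unusedVariables false
set_option linter.unusedSectionVars false
set_option synthInstance.maxSize 100000

namespace AO

open SW

section
variable {M : Type} [SetStr M] [ZF M]

/-- `a` is the least ordinal which is not covered by `u` -/
def HnxL (u a : M) : Prop := Ord a ∧ ¬ Img u a ∧ ∀ c, E c a → Img u c

theorem HnxL_df : Cl2 (fun u a : M => HnxL u a) := by unfold HnxL; infer_instance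

instance {n : ℕ} {t s : (Fin n → M) → M} [ht : DfT t] [hs : DfT s] :
    Df (fun v => HnxL (t v) (s v)) := HnxL_df.comp2 ht hs

/-- the least ordinal which is not covered by `u` -/
noncomputable def hnxH (u : M) : M := the (fun a => HnxL u a)

theorem hnxH_df : Fn1 (fun u : M => hnxH u) := by unfold hnxH; infer_instance

instance {n : ℕ} {t : (Fin n → M) → M} [ht : DfT t] : DfT (fun v => hnxH (t v)) :=
  hnxH_df.comp1 ht

theorem hnxH_spec {u : M} (hu : Ord u) : HnxL u (hnxH u) := by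
  obtain ⟨a, ha, hn⟩ := L83.hart_img hu
  obtain ⟨w, hw, hw1, hw2, _⟩ := ord_min (C := fun x : M => ¬ Img u x) inferInstance ha hn
  refine the_spec (p := fun a => HnxL u a) ⟨w, ⟨hw, hw1, fun c hc => not_not.1 (hw2 c hc)⟩, ?_⟩
  rintro b ⟨hb, hb1, hb2⟩
  rcases hb.tri hw with h | h | h
  · exact absurd (not_not.1 (hw2 b h)) hb1
  · exact h
  · exact absurd (hb2 w h) hw1

theorem hnxH_mem {u a : M} (hu : Ord u) (ha : Ord a) (h : Sub a u) : E a (hnxH u) := by
  obtain ⟨h1, h2, h3⟩ := hnxH_spec hu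
  rcases ha.tri h1 with h4 | h4 | h4
  · exact h4
  · exact absurd (h4 ▸ L83.img_sub (L83.img_refl u) h) h2
  · exact absurd (L83.img_sub (L83.img_refl u) ((ha.sub_of_mem h4).trans h)) h2

end

theorem hnx_bun {M : Type} [SetStr M] [ZF M] {a b : M} (ha : Ord a) (hb : Ord b) : Ord (bun a b) := by
  unfold bun
  refine Ord_sUn fun y hy => ?_
  rw [mem_upair] at hy
  rcases hy with rfl | rfl
  · exact ha
  · exact hb

theorem hnx : HNXStmt := by
  intro M _ _
  obtain ⟨V, hV, hrec⟩ := CC.exists_rec (M := M)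
    (F := fun j g => hnxH (bun om (sUn (img j (fun i => app g i))))) inferInstance
  have hrec' : ∀ j, V j = hnxH (bun om (sUn (img j V))) := by
    intro j
    have h1 := hrec j
    have h2 : img j (fun i => app (gr j V) i) = img j V :=
      CC.img_congr inferInstance hV fun y hy => app_gr hV hy
    rw [h2] at h1
    exact h1
  have hW : ∀ j, (∀ i, E i j → Ord (V i)) → Ord (bun om (sUn (img j V))) := by
    intro j hj
    refine hnx_bun Ord_om (Ord_sUn fun y hy => ?_)
    obtain ⟨i, hi, rfl⟩ := (mem_img' hV).1 hy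
    exact hj i hi
  have hord : ∀ j, E j om → Ord (V j) := by
    by_contra hcon
    push Not at hcon
    obtain ⟨j, ⟨hj, hjV⟩, hmin⟩ := mem_min (C := fun j : M => E j om ∧ ¬ Ord (V j)) inferInstance hcon
    apply hjV
    rw [hrec' j]
    refine (hnxH_spec (hW j fun i hi => ?_)).1
    by_contra h
    exact hmin i hi ⟨Trans_om j hj i hi, h⟩
  have hU : ∀ j, E j om → Ord (bun om (sUn (img j V))) := fun j hj =>
    hW j fun i hi => hord i (Trans_om j hj i hi)
  -- the sequence is increasing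
  have hinc : ∀ j i, E j om → E i j → E (V i) (V j) := by
    intro j i hj hi
    rw [hrec' j]
    refine hnxH_mem (hU j hj) (hord i (Trans_om j hj i hi)) fun z hz => ?_
    rw [mem_bun, mem_sUn]
    exact Or.inr ⟨V i, (mem_img' hV).2 ⟨i, hi, rfl⟩, hz⟩
  have hz : ∀ v, E v (sUn (img om V)) ↔ ∃ n, E n om ∧ E v (V n) := by
    intro v
    rw [mem_sUn]
    constructor
    · rintro ⟨y, hy, hv⟩
      obtain ⟨n, hn, rfl⟩ := (mem_img' hV).1 hy
      exact ⟨n, hn, hv⟩
    · rintro ⟨n, hn, hv⟩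
      exact ⟨V n, (mem_img' hV).2 ⟨n, hn, rfl⟩, hv⟩
  refine ⟨sUn (img om V), ?_, ?_, ?_⟩
  · refine Ord_sUn fun y hy => ?_
    obtain ⟨n, hn, rfl⟩ := (mem_img' hV).1 hy
    exact hord n hn
  · rw [hz]
    refine ⟨emp, emp_mem_om, ?_⟩
    rw [hrec' emp]
    exact hnxH_mem (hU emp emp_mem_om) Ord_om fun z hz' => mem_bun.2 (Or.inl hz')
  · intro v hv
    obtain ⟨n, hn, hvn⟩ := (hz v).1 hv
    have hsn := suc_mem_om hn
    refine ⟨V (SW.suc n), (hz _).2 ⟨SW.suc (SW.suc n), suc_mem_om hsn,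
      hinc _ _ (suc_mem_om hsn) (mem_suc.2 (Or.inr rfl))⟩, ?_⟩
    intro him
    have h1 := hnxH_spec (hU (SW.suc n) hsn)
    rw [← hrec' (SW.suc n)] at h1
    refine h1.2.1 (L83.img_mono him fun z hzv => ?_)
    rw [mem_bun, mem_sUn]
    exact Or.inr ⟨V n, (mem_img' hV).2 ⟨n, mem_suc.2 (Or.inr rfl), rfl⟩,
      (hord n hn).trans hvn hzv⟩

end AO
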