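import Pool.Agent.H74.AO.HStmts

/-!
# Module HPT
-/

set_option linter.unusedVariables false
set_option linter.unusedSectionVars false
set_option synthInstance.maxSize 100000

namespace AO

open SW MeasureTheory

theorem hpt_cat (V : ℕ → Vx) (p q : Pat) : wp V (p ++ q) = wp V p * wp V q := by
  unfold wp
  rw [List.map_append, FreeGroup.mul_mk]

theorem hpt_inv (V : ℕ → Vx) (p : Pat) :
    wp V ((p.map (fun a => (a.1, !a.2))).reverse) = (wp V p)⁻¹ := by
  unfold wp
  rw [FreeGroup.inv_mk]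
  unfold FreeGroup.invRev
  rw [List.map_reverse, List.map_map, List.map_map]
  rfl

/-- shift of the indices of a letter -/
def hptSh (σ : ℕ → ℕ) : PLet → PLet
  | Sum.inl (i, s) => Sum.inl (σ i, s)
  | Sum.inr (i, j, n) => Sum.inr (σ i, σ j, n)

theorem hpt_shift (V : ℕ → Vx) (σ : ℕ → ℕ) (p : Pat) :
    wp V (p.map (fun a => (hptSh σ a.1, a.2))) = wp (fun i => V (σ i)) p := by
  unfold wp
  rw [List.map_map]
  congr 1
  refine List.map_congr_left fun a _ => ?_
  rcases a with ⟨a | a, b⟩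
  · rfl
  · rfl

theorem hpt_code (p : Pat) : ∃ n, pdec n = p := by
  refine ⟨Encodable.encode p, ?_⟩
  unfold pdec
  rw [Encodable.encodek]
  rfl

theorem hpt_si (Z : Rl → Rl → Prop) (V : ℕ → Vx) (F : Set Vx) (p : Pat) (h : SI V F p) :
    (QuotientGroup.mk (wp V p) : Gr Z) ∈ GV Z F := by
  induction p with
  | nil =>
    have : (QuotientGroup.mk (wp V []) : Gr Z) = 1 := rfl
    rw [this]
    exact Subgroup.one_mem _
  | cons a p ih =>
    have h1 : wp V (a :: p) = wp V [a] * wp V p := by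
      rw [← hpt_cat]
      rfl
    rw [h1]
    have h2 : (QuotientGroup.mk (wp V [a] * wp V p) : Gr Z) =
        QuotientGroup.mk (wp V [a]) * QuotientGroup.mk (wp V p) := rfl
    rw [h2]
    refine Subgroup.mul_mem _ ?_ (ih ⟨?_, ?_⟩)
    · rcases a with ⟨g, b⟩
      have hg : (QuotientGroup.mk (FreeGroup.of (pl V g)) : Gr Z) ∈ GV Z F := by
        rcases g with ⟨i, s⟩ | ⟨i, j, n⟩
        · refine Subgroup.subset_closure (Or.inl ⟨V i, s, ?_, rfl⟩)
          exact h.1 i s b (List.mem_cons_self)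
        · refine Subgroup.subset_closure (Or.inr ⟨(V i).2, (V j).2, n, ?_, ?_, rfl⟩)
          · exact (h.2 i j n b (List.mem_cons_self)).1
          · exact (h.2 i j n b (List.mem_cons_self)).2
      cases b with
      | true => exact hg
      | false =>
        have h3 : wp V [(g, false)] = (FreeGroup.of (pl V g))⁻¹ := rfl
        rw [h3]
        exact Subgroup.inv_mem _ hg
    · intro i s b hb
      exact h.1 i s b (List.mem_cons_of_mem _ hb)
    · intro i j n b hb
      exact h.2 i j n b (List.mem_cons_of_mem _ hb)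

theorem hpt_sur (Z : Rl → Rl → Prop) (V : ℕ → Vx) (J : Finset ℕ) (g : Gr Z)
    (hg : g ∈ GV Z (fv V J)) :
    ∃ p : Pat, SI V (fv V J) p ∧ (QuotientGroup.mk (wp V p) : Gr Z) = g := by
  unfold GV at hg
  induction hg using Subgroup.closure_induction with
  | mem x hx =>
    rcases hx with ⟨v, s, hv, rfl⟩ | ⟨y, w, n, hy, hw, rfl⟩
    · obtain ⟨j, hj, rfl⟩ := hv
      refine ⟨[(Sum.inl (j, s), true)], ⟨?_, ?_⟩, rfl⟩
      · intro i s' b hb
        simp only [List.mem_singleton, Prod.mk.injEq, Sum.inl.injEq] at hb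
        rw [hb.1.1]
        exact ⟨j, hj, rfl⟩
      · intro i j' n b hb
        simp at hb
    · obtain ⟨i, hi, hi'⟩ := hy
      obtain ⟨j, hj, hj'⟩ := hw
      refine ⟨[(Sum.inr (i, j, n), true)], ⟨?_, ?_⟩, ?_⟩
      · intro i' s' b hb
        simp at hb
      · intro i' j' n' b hb
        simp only [List.mem_singleton, Prod.mk.injEq, Sum.inr.injEq] at hb
        rw [hb.1.1, hb.1.2.1, ← hi', ← hj']
        exact ⟨⟨i, hi, hi'⟩, ⟨j, hj, hj'⟩⟩
      · show (QuotientGroup.mk (FreeGroup.of (Sum.inr ((V i).2, (V j).2, n))) : Gr Z) = GT Z y w n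
        rw [← hi', ← hj']
        rfl
  | one => exact ⟨[], ⟨by intro i s b hb; simp at hb, by intro i j n b hb; simp at hb⟩, rfl⟩
  | mul x y hx hy ihx ihy =>
    obtain ⟨p, hp, hp'⟩ := ihx
    obtain ⟨q, hq, hq'⟩ := ihy
    refine ⟨p ++ q, ⟨?_, ?_⟩, ?_⟩
    · intro i s b hb
      rcases List.mem_append.1 hb with hb | hb
      · exact hp.1 i s b hb
      · exact hq.1 i s b hb
    · intro i j n b hb
      rcases List.mem_append.1 hb with hb | hb
      · exact hp.2 i j n b hb
      · exact hq.2 i j n b hb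
    · rw [hpt_cat, ← hp', ← hq']
      rfl
  | inv x hx ih =>
    obtain ⟨p, hp, hp'⟩ := ih
    refine ⟨(p.map (fun a => (a.1, !a.2))).reverse, ⟨?_, ?_⟩, ?_⟩
    · intro i s b hb
      rw [List.mem_reverse, List.mem_map] at hb
      obtain ⟨⟨a, b'⟩, ha, ha'⟩ := hb
      simp only [Prod.mk.injEq] at ha'
      rw [ha'.1] at ha
      exact hp.1 i s b' ha
    · intro i j n b hb
      rw [List.mem_reverse, List.mem_map] at hb
      obtain ⟨⟨a, b'⟩, ha, ha'⟩ := hb
      simp only [Prod.mk.injEq] at ha'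
      rw [ha'.1] at ha
      exact hp.2 i j n b' ha
    · rw [hpt_inv, ← hp']
      rfl

theorem ao_hpt : HPTStmt where
  cat := hpt_cat
  inv p := ⟨_, fun V => hpt_inv V p⟩
  shift σ p := ⟨_, fun V => hpt_shift V σ p⟩
  code := hpt_code
  si := hpt_si
  sur Z V J g hg := by
    obtain ⟨p, hp, hp'⟩ := hpt_sur Z V J g hg
    obtain ⟨n, hn⟩ := hpt_code p
    refine ⟨n, ?_, ?_⟩
    · rw [hn]
      exact hp
    · unfold el
      rw [hn]
      exact hp'

end AO
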