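import Pool.Agent.H94.AO.QStmts

/-!
# Module STP
-/

set_option linter.unusedVariables false
set_option linter.unusedSectionVars false
set_option synthInstance.maxSize 100000

namespace AO

open SW

theorem stp (hd : DIQStmt) (hr : RGBStmt) : STPStmt := by
  intro M _ _ w l p D hR hD hp hmono htot
  have hF := hr M w l hR
  have hfp := ((QP_iff hR.ord).1 hp).2.1
  obtain ⟨q, g, hq, hqp, hg⟩ := hd M w l p (CC.fst p) l D hR hD hp hfp
    (fun r r' j y h1 h2 h3 => hmono r r' j y h1 h2 h3)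
    (fun r j h1 h2 h3 => htot r j h1 h2 (hR.ord.trans hfp h3))
  obtain ⟨c, hc, hcg⟩ := hF.bnd (CC.fst p) (fun x => app g x) inferInstance hfp
    (fun x hx => (hg x hx).1)
  obtain ⟨e1, e2, e3⟩ := (QP_iff hR.ord).1 hq
  have hb := hF.bun (CC.fst q) c e2 hc
  obtain ⟨h1, h2⟩ := QP_blank hR.ord (e1 ▸ hq) (b' := bun (CC.fst q) c)
    (fun z hz => mem_bun.2 (Or.inl hz)) hb
  rw [← e1] at h2
  refine ⟨_, h1, QL_trans h2 hqp, fun n hn => ⟨app g n, ?_, ?_⟩⟩
  · rw [CC.fst_opair]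
    exact mem_bun.2 (Or.inr (hcg n hn))
  · exact hmono _ _ _ _ (hg n hn).2 h1 h2

end AO
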